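import Mathlib

set_option autoImplicit false

/-!
# The iterated local permutation polynomial `f_10` over `𝔽_7` does not have maximal degree

The coefficient of `∏ x_i ^ 5` in the reduced form of `f_10` is `∑_x f_10(x) ∏ x_i`, which is
computed by an iteration over the seven values of `f_i` and vanishes.
-/

namespace Pool.Agent.Results.MP_df70bc_co.DegreeDrop

open MvPolynomial

/-- `t(x) = x + ∑_{k=0}^{q-2} x ^ k` as a map on the finite field `F` with `q` elements. -/
def t (F : Type) [Field F] [Fintype F] (x : F) : F :=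
  x + ∑ k ∈ Finset.range (Fintype.card F - 1), x ^ k

/-- `f F n` is the function `f_{n+1}` of the problem, in `n + 1` variables:
`f_1 = x_1` and `f_i = t (f_{i-1} ^ (q-2) + x_i ^ (q-2))`. -/
def f (F : Type) [Field F] [Fintype F] : (n : ℕ) → (Fin (n + 1) → F) → F
  | 0, x => x 0
  | (n + 1), x => t F ((f F n (Fin.init x)) ^ (Fintype.card F - 2)
      + (x (Fin.last (n + 1))) ^ (Fintype.card F - 2))

/-- `P` is the reduced form of the function `g : F ^ n → F`: all its partial degrees are smaller
than `q = #F` and it takes the values of `g`. -/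
def IsReducedForm (F : Type) [Field F] [Fintype F] {n : ℕ} (g : (Fin n → F) → F)
    (P : MvPolynomial (Fin n) F) : Prop :=
  (∀ i, P.degreeOf i < Fintype.card F) ∧ ∀ x, eval x P = g x

instance : Fact (Nat.Prime 7) := ⟨by norm_num⟩

theorem sum_pow_seven : ∀ k < 13, (∑ a : ZMod 7, a ^ k) = if k = 6 ∨ k = 12 then -1 else 0 := by
  decide

theorem sum_eval_mul {n : ℕ} (P : MvPolynomial (Fin n) (ZMod 7)) (e : Fin n → ℕ) :
    ∑ x : Fin n → ZMod 7, eval x P * ∏ i, x i ^ e i =
      ∑ m ∈ P.support, coeff m P * ∏ i, ∑ a : ZMod 7, a ^ (m i + e i) := by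
  have h1 : ∀ x : Fin n → ZMod 7, eval x P * ∏ i, x i ^ e i =
      ∑ m ∈ P.support, coeff m P * ∏ i, x i ^ (m i + e i) := by
    intro x
    rw [eval_eq', Finset.sum_mul]
    refine Finset.sum_congr rfl fun m _ => ?_
    rw [mul_assoc, ← Finset.prod_mul_distrib]
    congr 1
    refine Finset.prod_congr rfl fun i _ => ?_
    rw [pow_add]
  rw [Finset.sum_congr rfl fun x _ => h1 x, Finset.sum_comm]
  refine Finset.sum_congr rfl fun m _ => ?_
  rw [← Finset.mul_sum]
  congr 1
  rw [Finset.prod_univ_sum]
  rw [Fintype.piFinset_univ]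

/-- If `m` is a monomial of the reduced polynomial `P` and no larger monomial of `P` arises from
`m` by replacing exponents `0` by `6`, then the corresponding power sum is nonzero. -/
theorem power_sum_ne_zero {n : ℕ} (P : MvPolynomial (Fin n) (ZMod 7))
    (hP : ∀ i, P.degreeOf i < 7) (m : Fin n →₀ ℕ) (hm : m ∈ P.support)
    (hmax : ∀ m' ∈ P.support, (∀ i, m i ≤ m' i) → (∀ i, m i = 6 → m' i = 6) → m' = m) :
    ∑ x : Fin n → ZMod 7, eval x P * ∏ i, x i ^ (6 - m i) ≠ 0 := by
  have hlt : ∀ m' ∈ P.support, ∀ i, m' i ≤ 6 := by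
    intro m' hm' i
    have := monomial_le_degreeOf i hm'
    have := hP i
    omega
  rw [sum_eval_mul P fun i => 6 - m i]
  rw [Finset.sum_eq_single m]
  · rw [Finset.prod_congr rfl (g := fun _ => (-1 : ZMod 7))]
    · rw [Finset.prod_const]
      exact mul_ne_zero (mem_support_iff.1 hm) (pow_ne_zero _ (by decide))
    · intro i _
      have := hlt m hm i
      rw [show m i + (6 - m i) = 6 by omega, sum_pow_seven 6 (by norm_num)]
      simp
  · intro m' hm' hne
    by_contra hc
    apply hne
    have h1 : ∀ i, m' i + (6 - m i) = 6 ∨ m' i + (6 - m i) = 12 := by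
      intro i
      by_contra hc'
      apply hc
      have h2 := hlt m hm i
      have h3 := hlt m' hm' i
      have h4 := sum_pow_seven (m' i + (6 - m i)) (by omega)
      rw [if_neg hc'] at h4
      rw [Finset.prod_eq_zero (Finset.mem_univ i) h4, mul_zero]
    refine hmax m' hm' (fun i => ?_) (fun i hi => ?_)
    · have := h1 i
      have h2 := hlt m hm i
      have h3 := hlt m' hm' i
      omega
    · have := h1 i
      have h3 := hlt m' hm' i
      omega
  · intro h
    exact absurd hm h

/-- the inner maps of the recursion are bijective -/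
theorem bij_pow : Function.Bijective (fun a : ZMod 7 => a ^ (Fintype.card (ZMod 7) - 2)) := by
  decide

theorem bij_t : Function.Bijective (t (ZMod 7)) := by
  decide

/-- `f_{n+1}` is a local permutation. -/
theorem f_bijective (n : ℕ) (i : Fin (n + 1)) (x : Fin (n + 1) → ZMod 7) :
    Function.Bijective fun a => f (ZMod 7) n (Function.update x i a) := by
  induction n with
  | zero =>
    have : i = 0 := Subsingleton.elim (α := Fin 1) _ _
    subst this
    simp only [f, Function.update_self]
    exact Function.bijective_id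
  | succ n ih =>
    induction i using Fin.lastCases with
    | last =>
      have h : (fun a => f (ZMod 7) (n + 1) (Function.update x (Fin.last (n + 1)) a)) =
          t (ZMod 7) ∘ (fun b => (f (ZMod 7) n (Fin.init x)) ^ (Fintype.card (ZMod 7) - 2) + b) ∘
            (fun a => a ^ (Fintype.card (ZMod 7) - 2)) := by
        funext a
        simp only [f, Function.comp, Fin.init_update_last, Function.update_self]
      rw [h]
      exact bij_t.comp ((AddGroup.addLeft_bijective _).comp bij_pow)
    | cast i =>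
      have h : (fun a => f (ZMod 7) (n + 1) (Function.update x i.castSucc a)) =
          t (ZMod 7) ∘ (fun b => b + (x (Fin.last (n + 1))) ^ (Fintype.card (ZMod 7) - 2)) ∘
            (fun b => b ^ (Fintype.card (ZMod 7) - 2)) ∘
            (fun a => f (ZMod 7) n (Function.update (Fin.init x) i a)) := by
        funext a
        simp only [f, Function.comp, Fin.init_update_castSucc]
        rw [Function.update_of_ne (Fin.castSucc_lt_last i).ne']
      rw [h]
      exact bij_t.comp ((AddGroup.addRight_bijective _).comp (bij_pow.comp (ih i _)))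

/-- Sums against monomials not involving `x_i` vanish. -/
theorem sum_f_eq_zero (n : ℕ) (i : Fin (n + 1)) (e : Fin (n + 1) → ℕ) (he : e i = 0) :
    ∑ x : Fin (n + 1) → ZMod 7, f (ZMod 7) n x * ∏ j, x j ^ e j = 0 := by
  rw [← (Fin.insertNthEquiv (fun _ => ZMod 7) i).sum_comp]
  rw [Fintype.sum_prod_type_right]
  refine Finset.sum_eq_zero fun y _ => ?_
  let z : ZMod 7 → Fin (n + 1) → ZMod 7 := fun a => Fin.insertNth (α := fun _ => ZMod 7) i a y
  have h1 : ∀ a : ZMod 7, f (ZMod 7) n (z a) * ∏ j, z a j ^ e j =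
      f (ZMod 7) n (Function.update (z 0) i a) * ∏ j : Fin n, y j ^ e (i.succAbove j) := by
    intro a
    rw [Fin.prod_univ_succAbove _ i]
    have h2 : Function.update (z 0) i a = z a :=
      Fin.update_insertNth (α := fun _ => ZMod 7) i 0 a y
    have h3 : z a i = a := Fin.insertNth_apply_same (α := fun _ => ZMod 7) i a y
    have h4 : ∀ j, z a (i.succAbove j) = y j := fun j =>
      Fin.insertNth_apply_succAbove (α := fun _ => ZMod 7) i a y j
    simp only [h2, h3, h4, he, pow_zero, one_mul]
  change ∑ a : ZMod 7, f (ZMod 7) n (z a) * ∏ j, z a j ^ e j = 0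
  rw [Finset.sum_congr rfl fun a _ => h1 a, ← Finset.sum_mul,
    (f_bijective n i _).sum_comp (fun b => b)]
  have : (∑ b : ZMod 7, b) = 0 := by decide
  rw [this, zero_mul]

/-- Removal of the last variable in sums of the form `∑_x G(f_n(x)) ∏ x_i`. -/
theorem sum_step (n : ℕ) (G G' : ZMod 7 → ZMod 7)
    (h : ∀ a, (∑ c : ZMod 7, G (t (ZMod 7) (a ^ (Fintype.card (ZMod 7) - 2) +
      c ^ (Fintype.card (ZMod 7) - 2))) * c) = G' a) :
    ∑ x : Fin (n + 2) → ZMod 7, G (f (ZMod 7) (n + 1) x) * ∏ j, x j =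
      ∑ x : Fin (n + 1) → ZMod 7, G' (f (ZMod 7) n x) * ∏ j, x j := by
  rw [← (Fin.snocEquiv (fun _ => ZMod 7)).sum_comp, Fintype.sum_prod_type_right]
  refine Finset.sum_congr rfl fun y _ => ?_
  rw [← h, Finset.sum_mul]
  refine Finset.sum_congr rfl fun c _ => ?_
  let z : Fin (n + 2) → ZMod 7 := Fin.snoc (α := fun _ => ZMod 7) y c
  have h1 : ∀ j : Fin (n + 1), z j.castSucc = y j := fun j => Fin.snoc_castSucc _ _ _
  have h2 : z (Fin.last (n + 1)) = c := Fin.snoc_last _ _
  have h3 : Fin.init z = y := Fin.init_snoc _ _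
  change G (f (ZMod 7) (n + 1) z) * ∏ j, z j = _
  rw [Fin.prod_univ_castSucc]
  simp only [h1, h2, h3, f]
  ring

/-- A function on `ℤ/7` given by its list of values. -/
def tab (l : List (ZMod 7)) (a : ZMod 7) : ZMod 7 := l.getD a.val 0

/-- The leading coefficient sum of `f_10` over `𝔽_7` vanishes. -/
theorem sum_f_ten : ∑ x : Fin 10 → ZMod 7, f (ZMod 7) 9 x * ∏ j, x j = 0 := by
  have e1 := sum_step 8 (fun a => a) (tab [5, 5, 2, 5, 3, 5, 3]) (by decide)
  have e2 := sum_step 7 (tab [5, 5, 2, 5, 3, 5, 3]) (tab [0, 2, 4, 1, 2, 5, 0]) (by decide)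
  have e3 := sum_step 6 (tab [0, 2, 4, 1, 2, 5, 0]) (tab [5, 5, 5, 3, 5, 1, 4]) (by decide)
  have e4 := sum_step 5 (tab [5, 5, 5, 3, 5, 1, 4]) (tab [0, 2, 1, 0, 4, 0, 0]) (by decide)
  have e5 := sum_step 4 (tab [0, 2, 1, 0, 4, 0, 0]) (tab [5, 5, 6, 6, 1, 0, 5]) (by decide)
  have e6 := sum_step 3 (tab [5, 5, 6, 6, 1, 0, 5]) (tab [0, 3, 4, 2, 2, 3, 0]) (by decide)
  have e7 := sum_step 2 (tab [0, 3, 4, 2, 2, 3, 0]) (tab [4, 4, 0, 3, 6, 2, 2]) (by decide)
  have e8 := sum_step 1 (tab [4, 4, 0, 3, 6, 2, 2]) (tab [0, 6, 0, 6, 0, 2, 0]) (by decide)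
  have e9 := sum_step 0 (tab [0, 6, 0, 6, 0, 2, 0]) (tab [1, 1, 5, 0, 6, 6, 2]) (by decide)
  refine e1.trans (e2.trans (e3.trans (e4.trans (e5.trans (e6.trans (e7.trans (e8.trans
    (e9.trans ?_))))))))
  decide

theorem mem_restrict_iff (P : MvPolynomial (Fin 10) (ZMod 7)) :
    (∀ i, P.degreeOf i < Fintype.card (ZMod 7)) ↔
      P ∈ restrictDegree (Fin 10) (ZMod 7) (Fintype.card (ZMod 7) - 1) := by
  have hcard : Fintype.card (ZMod 7) = 7 := rfl
  rw [mem_restrictDegree, hcard]
  constructor
  · intro h s hs i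
    have := monomial_le_degreeOf i hs
    have := h i
    omega
  · intro h i
    rw [degreeOf_lt_iff (by norm_num)]
    intro m hm
    have := h m hm i
    omega

/-- **Theorem.** For `q = 7` and `n = 10` the polynomial `f_n` (in reduced form, which exists and
is unique) has degree smaller than `n (q - 2) = 50`. -/
theorem result :
    (∃! P : MvPolynomial (Fin 10) (ZMod 7), IsReducedForm (ZMod 7) (f (ZMod 7) 9) P) ∧
    ∀ P : MvPolynomial (Fin 10) (ZMod 7), IsReducedForm (ZMod 7) (f (ZMod 7) 9) P →
      P.totalDegree < 10 * (7 - 2) := by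
  refine ⟨?_, ?_⟩
  · obtain ⟨P, hP1, hP2⟩ : ∃ P ∈ restrictDegree (Fin 10) (ZMod 7) (Fintype.card (ZMod 7) - 1),
        evalₗ (ZMod 7) (Fin 10) P = f (ZMod 7) 9 := by
      have h := map_restrict_dom_evalₗ (ZMod 7) (Fin 10)
      have h2 : f (ZMod 7) 9 ∈ (restrictDegree (Fin 10) (ZMod 7)
          (Fintype.card (ZMod 7) - 1)).map (evalₗ (ZMod 7) (Fin 10)) := by
        rw [h]; exact Submodule.mem_top
      obtain ⟨P, h3, h4⟩ := h2
      exact ⟨P, h3, h4⟩
    refine ⟨P, ⟨(mem_restrict_iff P).2 hP1, fun x => congrFun hP2 x⟩, ?_⟩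
    rintro Q ⟨hQ1, hQ2⟩
    have h0 : Q - P = 0 := by
      refine eq_zero_of_eval_eq_zero (Fin 10) (ZMod 7) (Q - P) (fun v => ?_) ?_
      · rw [map_sub, hQ2, ← congrFun hP2 v]
        exact sub_self _
      · exact Submodule.sub_mem _ ((mem_restrict_iff Q).1 hQ1) hP1
    exact sub_eq_zero.1 h0
  · intro P hP
    obtain ⟨hdeg, heval⟩ := hP
    have hdeg7 : ∀ i, P.degreeOf i < 7 := hdeg
    -- no monomial contains a sixth power
    have h5 : ∀ m ∈ P.support, ∀ i, m i ≤ 5 := by
      by_contra hcon
      push Not at hcon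
      obtain ⟨m0, hm0, i, hi⟩ := hcon
      have hm6 : ∀ m ∈ P.support, ∀ j, m j ≤ 6 := by
        intro m hm j
        have := monomial_le_degreeOf j hm
        have := hdeg7 j
        omega
      -- a monomial with `m i = 6` of maximal total degree
      obtain ⟨m, hm, hmax⟩ := (P.support.filter fun m => m i = 6).exists_max_image
        (fun m => ∑ j, m j) ⟨m0, by
          rw [Finset.mem_filter]
          exact ⟨hm0, by have := hm6 m0 hm0 i; omega⟩⟩
      rw [Finset.mem_filter] at hm
      refine power_sum_ne_zero P hdeg7 m hm.1 ?_ ?_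
      · intro m' hm' hle h6
        have h7 : m' i = 6 := h6 i hm.2
        have h8 := hmax m' (Finset.mem_filter.2 ⟨hm', h7⟩)
        ext j
        by_contra hne
        have h9 : ∑ j, m j < ∑ j, m' j :=
          Finset.sum_lt_sum (fun j _ => hle j) ⟨j, Finset.mem_univ _, by
            have := hle j
            omega⟩
        omega
      · rw [← sum_f_eq_zero 9 i (fun j => 6 - m j) (by simp [hm.2])]
        refine Finset.sum_congr rfl fun x _ => ?_
        rw [heval]
    -- the only candidate of degree `≥ 50` is `∏ x_i ^ 5`, and its coefficient vanishes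
    rw [MvPolynomial.totalDegree, Finset.sup_lt_iff (by norm_num)]
    intro m hm
    by_contra hge
    rw [Finsupp.sum_fintype _ _ (fun _ => rfl)] at hge
    have hall : ∀ i, m i = 5 := by
      intro i
      by_contra hne
      have h6 : ∑ j, m j < ∑ j : Fin 10, 5 :=
        Finset.sum_lt_sum (fun j _ => h5 m hm j) ⟨i, Finset.mem_univ _, by
          have := h5 m hm i
          omega⟩
      simp at h6 hge
      omega
    refine power_sum_ne_zero P hdeg7 m hm ?_ ?_
    · intro m' hm' hle _
      ext j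
      have := hle j
      have := h5 m' hm' j
      have := hall j
      omega
    · rw [← sum_f_ten]
      refine Finset.sum_congr rfl fun x _ => ?_
      rw [heval]
      congr 1
      refine Finset.prod_congr rfl fun j _ => ?_
      rw [hall j, pow_one]

end Pool.Agent.Results.MP_df70bc_co.DegreeDrop
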